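import Pool.Agent.P8H39.TI.Stm2
import Pool.Agent.P8H76.TI.Hb

/-!
# Package TI/HB2 (for helper39): harmonic decomposition, one more item

Copy of `Pool.Agent.P8H76.TI.t_HB` (helper76) with the new item.
-/

set_option autoImplicit false

namespace Pool.Agent.P8H55.TI

open Finset Pool.Agent.P8H39.TI Pool.Agent.P8H76.TI

variable {n : ℕ}

theorem binom_inv (b : ℕ → ℝ) {r m : ℕ} (hm : m ≤ r) :
    b m = ∑ i ∈ range (r + 1),
      (∑ e ∈ range (i + 1), (-1 : ℝ) ^ (i - e) * (i.choose e : ℝ) * b e) * (m.choose i : ℝ) := by
  have h1 : ∀ i, ∑ e ∈ range (i + 1), (-1 : ℝ) ^ (i - e) * (i.choose e : ℝ) * b e =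
      (fwdDiff (1 : ℕ))^[i] b 0 := by
    intro i
    rw [fwdDiff_iter_eq_sum_shift]
    refine sum_congr rfl fun e _ => ?_
    rw [zsmul_eq_mul]
    push_cast
    simp
  simp_rw [h1]
  have h2 := shift_eq_sum_fwdDiff_iter (1 : ℕ) b m 0
  have h3 : (0 : ℕ) + m • 1 = m := by simp
  rw [h3] at h2
  rw [h2]
  rw [← sum_subset (range_subset_range.2 (by omega : m + 1 ≤ r + 1))]
  · refine sum_congr rfl fun i _ => ?_
    rw [nsmul_eq_mul, mul_comm]
  · intro i _ hi
    have : m < i := by
      by_contra h
      exact hi (mem_range.2 (by omega))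
    rw [Nat.choose_eq_zero_of_lt this, Nat.cast_zero, mul_zero]

theorem dn_dn_all {i l r : ℕ} (hir : i ≤ r) (hlr : l ≤ r) (u : Finset (Fin n) → ℝ)
    {R : Finset (Fin n)} (hR : R.card = r) :
    dn i (dn l u) R = ((r - l).choose (r - i) : ℝ) * dn l u R := by
  rcases Nat.lt_or_ge i l with h | h
  · rw [Nat.choose_eq_zero_of_lt (by omega : r - l < r - i), Nat.cast_zero, zero_mul, dn]
    refine sum_eq_zero fun X hX => ?_
    rw [dn_lt]
    rw [(mem_powersetCard.1 hX).2]
    exact h
  · rw [dn_dn h, hR]
    congr 2
    rw [← Nat.choose_symm (by omega : i - l ≤ r - l)]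
    congr 1
    omega

theorem hβ'' (n k r : ℕ) (b : ℕ → ℝ) (l : ℕ) (β η : ℕ → ℝ)
    (hβ : β = fun i => ∑ e ∈ range (i + 1), (-1 : ℝ) ^ (i - e) * (i.choose e : ℝ) * b e)
    (hη : η = fun j => ∑ i ∈ range (r + 1), β i *
      ((n - i - j).choose (k - j) : ℝ) * ((r - j).choose (r - i) : ℝ)) :
    η l = ∑ i ∈ range (r + 1),
      (∑ e ∈ range (i + 1), (-1 : ℝ) ^ (i - e) * (i.choose e : ℝ) * b e) *
      ((n - i - l).choose (k - l) : ℝ) * ((r - l).choose (r - i) : ℝ) := by
  rw [hη, hβ]

theorem t_HB2 : S_HA → S_HB2 := by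
  classical
  intro hA n k hk f
  obtain ⟨u, hu, hf⟩ := decomp k f
  let x : ℕ → ℝ := fun j => ∑ A ∈ slice n k, dn j (u j) A * dn j (u j) A
  -- the product of `f` with a harmonic part
  have hfj : ∀ j ≤ k, ∀ v : Finset (Fin n) → ℝ, Harm n j v → ∑ A ∈ slice n k, f A * dn j v A =
      ∑ A ∈ slice n k, dn j (u j) A * dn j v A := by
    intro j hj v hv
    have h1 : ∀ A ∈ slice n k, f A * dn j v A = ∑ l ∈ range (k + 1), dn l (u l) A * dn j v A := by
      intro A hA'
      rw [hf A hA', sum_mul]
    rw [sum_congr rfl h1, sum_comm, sum_eq_single j]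
    · intro l hl hlj
      have hlk : l ≤ k := by
        have := mem_range.1 hl
        omega
      exact orth' hA hk hlk hj hlj (hu l hlk) hv
    · intro h
      exact absurd (mem_range.2 (by omega)) h
  -- the sums over the pairs
  have hquad : ∀ (r : ℕ) (c : ℕ → ℝ) (F : Finset (Fin n) → ℝ), r ≤ k →
      (∀ R ∈ slice n r, F R = ∑ l ∈ range (k + 1), c l * dn l (u l) R) →
      ∑ A ∈ slice n k, f A * dn r F A = ∑ l ∈ range (r + 1), ((k - l).choose (r - l) : ℝ) * c l * x l := by
    intro r c F hr hF
    have h1 : ∀ A ∈ slice n k, dn r F A = ∑ l ∈ range (r + 1), ((k - l).choose (r - l) : ℝ) * c l * dn l (u l) A := by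
      intro A hA'
      have hAc := card_of_mem_slice hA'
      rw [dn_congr A hF, dn_sum]
      have h2 : range (r + 1) ⊆ range (k + 1) := range_subset_range.2 (by omega)
      rw [← sum_subset h2]
      · refine sum_congr rfl fun l hl => ?_
        have hlr : l ≤ r := by
          have := mem_range.1 hl
          omega
        rw [dn_smul, dn_dn hlr, hAc]
        ring
      · intro l _ hl
        have hlr : r < l := by
          by_contra h
          exact hl (mem_range.2 (by omega))
        rw [dn_smul]
        have h3 : dn r (dn l (u l)) A = 0 := by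
          rw [dn]
          refine sum_eq_zero fun X hX => ?_
          rw [dn_lt]
          rw [(mem_powersetCard.1 hX).2]
          exact hlr
        rw [h3, mul_zero]
    have h4 : ∀ A ∈ slice n k, f A * dn r F A =
        ∑ l ∈ range (r + 1), ((k - l).choose (r - l) : ℝ) * c l * (f A * dn l (u l) A) := by
      intro A hA'
      rw [h1 A hA', mul_sum]
      refine sum_congr rfl fun l _ => ?_
      ring
    rw [sum_congr rfl h4, sum_comm]
    refine sum_congr rfl fun l hl => ?_
    have hlk : l ≤ k := by
      have := mem_range.1 hl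
      omega
    rw [← mul_sum, hfj l hlk (u l) (hu l hlk)]
  have hfour : ∀ r, r ≤ k → ∑ R ∈ slice n r, up n k f R ^ 2 =
      ∑ j ∈ range (r + 1),
        ((k - j).choose (r - j) : ℝ) * ((n - r - j).choose (k - r) : ℝ) * x j := by
    intro r hr
    have h1 : ∑ R ∈ slice n r, up n k f R ^ 2 = ∑ A ∈ slice n k, f A * dn r (up n k f) A := by
      rw [sum_congr rfl fun A _ => mul_comm (f A) _, adj]
      refine sum_congr rfl fun R _ => ?_
      rw [pow_two]
    rw [h1]
    refine hquad r (fun l => ((n - r - l).choose (k - r) : ℝ)) _ hr fun R hR => ?_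
    have hRc := card_of_mem_slice hR
    rw [up_congr hf, up_sum]
    refine sum_congr rfl fun l hl => ?_
    have hlk : l ≤ k := by
      have := mem_range.1 hl
      omega
    rw [(hA n k l (u l) hk hlk (hu l hlk)).1 R (by omega), hRc]
  have hnew : ∀ r, r ≤ k → ∀ b : ℕ → ℝ,
      ∑ R ∈ slice n r, (∑ A ∈ slice n k, b (R \ A).card * f A) ^ 2 =
        ∑ j ∈ range (r + 1), lamb n k r b j * x j := by
    intro r hr b
    obtain ⟨β, hβ⟩ : ∃ β : ℕ → ℝ, β = fun i =>
      ∑ e ∈ range (i + 1), (-1 : ℝ) ^ (i - e) * (i.choose e : ℝ) * b e := ⟨_, rfl⟩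
    obtain ⟨η, hη⟩ : ∃ η : ℕ → ℝ, η = fun j => ∑ i ∈ range (r + 1), β i *
      ((n - i - j).choose (k - j) : ℝ) * ((r - j).choose (r - i) : ℝ) := ⟨_, rfl⟩
    -- the function on the `r`-sets
    have hG : ∀ R ∈ slice n r, ∑ A ∈ slice n k, b (R \ A).card * f A =
        ∑ l ∈ range (r + 1), (-1 : ℝ) ^ l * η l * dn l (u l) R := by
      intro R hR
      have hRc := card_of_mem_slice hR
      have h1 : ∑ A ∈ slice n k, b (R \ A).card * f A =
          ∑ i ∈ range (r + 1), β i * dn i (av n k f) R := by
        have h2 : ∀ i, dn i (av n k f) R =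
            ∑ B ∈ slice n k, ((R \ B).card.choose i : ℝ) * f B := by
          intro i
          simp only [dn, av]
          have h3 : ∀ I ∈ powersetCard i R, ∑ B ∈ (slice n k).filter (fun B => Disjoint B I), f B =
              ∑ B ∈ slice n k, if Disjoint B I then f B else 0 := fun I _ => by rw [sum_filter]
          rw [sum_congr rfl h3, sum_comm]
          refine sum_congr rfl fun B _ => ?_
          rw [← sum_filter, sum_const, nsmul_eq_mul, ← card_powersetCard]
          congr 3
          ext I
          rw [mem_filter, mem_powersetCard, mem_powersetCard, subset_sdiff]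
          exact ⟨fun h => ⟨⟨h.1.1, h.2.symm⟩, h.1.2⟩, fun h => ⟨⟨h.1.1, h.2⟩, h.1.2.symm⟩⟩
        have h4 : ∀ i ∈ range (r + 1), β i * dn i (av n k f) R =
            ∑ B ∈ slice n k, β i * ((R \ B).card.choose i : ℝ) * f B := by
          intro i _
          rw [h2 i, mul_sum]
          exact sum_congr rfl fun B _ => by ring
        rw [sum_congr rfl h4, sum_comm]
        refine sum_congr rfl fun A _ => ?_
        rw [← sum_mul]
        congr 1
        rw [hβ]
        refine binom_inv b ?_
        rw [← hRc]
        exact card_le_card sdiff_subset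
      rw [h1]
      have h5 : ∀ i ∈ range (r + 1), β i * dn i (av n k f) R =
          ∑ l ∈ range (r + 1), β i * ((-1 : ℝ) ^ l * ((n - i - l).choose (k - l) : ℝ) *
            (((r - l).choose (r - i) : ℝ) * dn l (u l) R)) := by
        intro i hi
        have hir : i ≤ r := by
          have := mem_range.1 hi
          omega
        rw [← mul_sum]
        congr 1
        have h6 : ∀ I ∈ slice n i, av n k f I =
            ∑ l ∈ range (k + 1), (-1 : ℝ) ^ l * ((n - i - l).choose (k - l) : ℝ) * dn l (u l) I := by
          intro I hI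
          have hIc := card_of_mem_slice hI
          rw [av_congr hf, av_sum]
          refine sum_congr rfl fun l hl => ?_
          have hlk : l ≤ k := by
            have := mem_range.1 hl
            omega
          rw [(hA n k l (u l) hk hlk (hu l hlk)).2 I (by omega), hIc]
        rw [dn_congr R h6, dn_sum]
        rw [← sum_subset (range_subset_range.2 (by omega : r + 1 ≤ k + 1))]
        · refine sum_congr rfl fun l hl => ?_
          have hlr : l ≤ r := by
            have := mem_range.1 hl
            omega
          rw [dn_smul, dn_dn_all hir hlr (u l) hRc]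
        · intro l _ hl
          have hlr : r < l := by
            by_contra h
            exact hl (mem_range.2 (by omega))
          rw [dn_smul]
          have h7 : dn i (dn l (u l)) R = 0 := by
            rw [dn]
            refine sum_eq_zero fun X hX => ?_
            rw [dn_lt]
            rw [(mem_powersetCard.1 hX).2]
            omega
          rw [h7, mul_zero]
      rw [sum_congr rfl h5, sum_comm]
      refine sum_congr rfl fun l _ => ?_
      rw [hη]
      simp only
      rw [mul_sum, sum_mul]
      exact sum_congr rfl fun i _ => by ring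
    -- the squares
    have hk2 : 2 * r ≤ n := by omega
    have hsq : ∀ R ∈ slice n r, (∑ A ∈ slice n k, b (R \ A).card * f A) ^ 2 =
        ∑ l ∈ range (r + 1), ∑ m ∈ range (r + 1), ((-1 : ℝ) ^ l * η l) * ((-1 : ℝ) ^ m * η m) *
          (dn l (u l) R * dn m (u m) R) := by
      intro R hR
      rw [hG R hR, pow_two, sum_mul_sum]
      refine sum_congr rfl fun l _ => sum_congr rfl fun m _ => ?_
      ring
    rw [sum_congr rfl hsq, sum_comm]
    refine sum_congr rfl fun l hl => ?_
    have hlr : l ≤ r := by
      have := mem_range.1 hl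
      omega
    rw [sum_comm, sum_eq_single l]
    · rw [← mul_sum]
      have hx : ∑ R ∈ slice n r, dn l (u l) R * dn l (u l) R =
          ((k - l).choose (r - l) : ℝ) / ((n - r - l).choose (k - r) : ℝ) * x l := by
        have hne : ((n - r - l).choose (k - r) : ℝ) ≠ 0 := by
          rw [Nat.cast_ne_zero]
          exact (Nat.choose_pos (by omega)).ne'
        have h8 : ((n - r - l).choose (k - r) : ℝ) * ∑ R ∈ slice n r, dn l (u l) R * dn l (u l) R =
            ((k - l).choose (r - l) : ℝ) * x l := by
          have h9 : ∑ A ∈ slice n k, dn r (dn l (u l)) A * dn l (u l) A =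
              ∑ R ∈ slice n r, dn l (u l) R * up n k (dn l (u l)) R := adj _ _
          have h10 : ∑ R ∈ slice n r, dn l (u l) R * up n k (dn l (u l)) R =
              ((n - r - l).choose (k - r) : ℝ) * ∑ R ∈ slice n r, dn l (u l) R * dn l (u l) R := by
            rw [mul_sum]
            refine sum_congr rfl fun R hR => ?_
            have hRc := card_of_mem_slice hR
            rw [(hA n k l (u l) hk (by omega) (hu l (by omega))).1 R (by omega), hRc]
            ring
          rw [← h10, ← h9]
          change _ = ((k - l).choose (r - l) : ℝ) * ∑ A ∈ slice n k, dn l (u l) A * dn l (u l) A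
          rw [mul_sum]
          refine sum_congr rfl fun A hA' => ?_
          have hAc := card_of_mem_slice hA'
          rw [dn_dn hlr, hAc]
          ring
        rw [div_mul_eq_mul_div, ← h8, mul_div_cancel_left₀ _ hne]
      rw [hx]
      unfold lamb
      rw [← hβ'' n k r b l β η hβ hη]
      have hs : (-1 : ℝ) ^ l * (-1 : ℝ) ^ l = 1 := by
        rw [← mul_pow]; norm_num
      linear_combination (η l ^ 2 * (((k - l).choose (r - l) : ℝ) / ((n - r - l).choose (k - r) : ℝ)) * x l) * hs
    · intro m hm hml
      have hmr : m ≤ r := by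
        have := mem_range.1 hm
        omega
      rw [← mul_sum, orth' hA hk2 hlr hmr (Ne.symm hml) (hu l (by omega)) (hu m (by omega)), mul_zero]
    · intro h
      exact absurd (mem_range.2 (by omega)) h
  refine ⟨x, fun j => sum_nonneg fun A _ => mul_self_nonneg _, ?_, ?_, hnew, ?_, ?_⟩
  · have h1 : ∀ A ∈ slice n k, f A ^ 2 = ∑ j ∈ range (k + 1), f A * dn j (u j) A := by
      intro A hA'
      rw [pow_two, ← mul_sum, ← hf A hA']
    symm
    rw [sum_congr rfl h1, sum_comm]
    refine sum_congr rfl fun j hj => ?_
    have hjk : j ≤ k := by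
      have := mem_range.1 hj
      omega
    rw [hfj j hjk (u j) (hu j hjk)]
  · have h1 := hfour 0 (Nat.zero_le _)
    have h2 : Pool.Agent.P8H39.TI.slice n 0 = {∅} := powersetCard_zero _
    rw [h2, sum_singleton, zero_add, sum_range_one] at h1
    have h3 : up n k f ∅ = ∑ A ∈ slice n k, f A := by
      rw [up]
      refine sum_congr ?_ fun _ _ => rfl
      rw [filter_eq_self]
      exact fun A _ => empty_subset A
    rw [h3] at h1
    rw [h1]
    simp only [Nat.sub_zero, Nat.choose_zero_right, Nat.cast_one, one_mul]
    ring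
  · intro i hi
    have h1 : ∀ A ∈ slice n k, ∑ B ∈ slice n k, ((A \ B).card.choose i : ℝ) * f A * f B =
        f A * dn i (av n k f) A := by
      intro A _
      have h2 : dn i (av n k f) A = ∑ B ∈ slice n k, ((A \ B).card.choose i : ℝ) * f B := by
        simp only [dn, av]
        have h3 : ∀ I ∈ powersetCard i A, ∑ B ∈ (slice n k).filter (fun B => Disjoint B I), f B =
            ∑ B ∈ slice n k, if Disjoint B I then f B else 0 := fun I _ => by rw [sum_filter]
        rw [sum_congr rfl h3, sum_comm]
        refine sum_congr rfl fun B _ => ?_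
        rw [← sum_filter, sum_const, nsmul_eq_mul, ← card_powersetCard]
        congr 3
        ext I
        rw [mem_filter, mem_powersetCard, mem_powersetCard, subset_sdiff]
        exact ⟨fun h => ⟨⟨h.1.1, h.2.symm⟩, h.1.2⟩, fun h => ⟨⟨h.1.1, h.2⟩, h.1.2.symm⟩⟩
      rw [h2, mul_sum]
      refine sum_congr rfl fun B _ => ?_
      ring
    rw [sum_congr rfl h1, hquad i (fun l => (-1 : ℝ) ^ l * ((n - i - l).choose (k - l) : ℝ)) _ hi]
    · refine sum_congr rfl fun l _ => ?_
      ring
    · intro R hR
      have hRc := card_of_mem_slice hR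
      rw [av_congr hf, av_sum]
      refine sum_congr rfl fun l hl => ?_
      have hlk : l ≤ k := by
        have := mem_range.1 hl
        omega
      rw [(hA n k l (u l) hk hlk (hu l hlk)).2 R (by omega), hRc]
  · rintro t ht ⟨g, hg⟩ j htj hjk
    obtain ⟨v, hv, hgv⟩ := decomp t g
    show ∑ A ∈ slice n k, dn j (u j) A * dn j (u j) A = 0
    rw [← hfj j hjk (u j) (hu j hjk)]
    have h1 : ∀ A ∈ slice n k, f A * dn j (u j) A =
        ∑ i ∈ range (t + 1), ((k - i).choose (t - i) : ℝ) * (dn i (v i) A * dn j (u j) A) := by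
      intro A hA'
      have hAc := card_of_mem_slice hA'
      rw [hg A hA', dn_congr A hgv, dn_sum, sum_mul]
      refine sum_congr rfl fun i hi => ?_
      have hit : i ≤ t := by
        have := mem_range.1 hi
        omega
      rw [dn_dn hit, hAc]
      ring
    rw [sum_congr rfl h1, sum_comm]
    refine sum_eq_zero fun i hi => ?_
    have hit : i ≤ t := by
      have := mem_range.1 hi
      omega
    rw [← mul_sum, orth hA hk (by omega : i < j) hjk (hu j hjk), mul_zero]

end Pool.Agent.P8H55.TI
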